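import Pool.Agent.HP25.FD.C
import Pool.Agent.W93.PG7

/-!
# Goldbach representations in primorial intervals, for ALL even integers near the multiples `λ_k x` of all real numbers
`x > 0` outside a set of Fourier dimension zero

New (`Pool.Agent.HP25.FD`): the approximation of a measure on the line by uniform finite families, and the bound for the
moments of these families, at all scales, in terms of the Fourier transform of the measure. From the starting files: the
transfer from additive energy to Goldbach representations (`Pool.Agent.R459.near_even`) and to primorial intervals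
(`Pool.Agent.W93.PG.reps_of_win`).
-/

set_option autoImplicit false

namespace Pool.Agent.Results.MP_484fb8_nt.FourierDimensionZero

open Finset Filter Topology MeasureTheory

/-- `ν` is a probability measure on `[0, T]` whose Fourier transform is at most `C |t| ^ (-δ)`. -/
structure PowerDecay (ν : Measure ℝ) (T : ℕ) (C δ : ℝ) : Prop where
  prob : IsProbabilityMeasure ν
  supp : ν (Set.Icc (0 : ℝ) T)ᶜ = 0
  decay : ∀ t : ℝ, ‖charFun ν t‖ * |t| ^ δ ≤ C

/-- The twin prime constant `∏_{p > 2} (1 - 1 / (p - 1) ^ 2)`, as the infimum of the decreasing partial products. -/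
noncomputable def C₂ : ℝ := ⨅ z : ℕ, ∏ p ∈ (Icc 3 z).filter Nat.Prime, (1 - 1 / ((p : ℝ) - 1) ^ 2)

/-- The singular series `2 C₂ ∏_{p ∣ m, p > 2} (p - 1) / (p - 2)` of an even number `m`. -/
noncomputable def sing (m : ℕ) : ℝ :=
  2 * C₂ * ∏ p ∈ m.primeFactors.filter (fun p => 2 < p), ((p : ℝ) - 1) / ((p : ℝ) - 2)

/-- `#(n)`: the product of the first `n` primes. -/
noncomputable def P (n : ℕ) : ℕ := ∏ i ∈ range n, Nat.nth Nat.Prime i

/-- The number of primes `p` in the `n`-th primorial interval such that `m - p` is a prime which lies in the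
`n`-th or in the `n + 1`-st primorial interval. -/
noncomputable def R (n m : ℕ) : ℕ :=
  ((Icc (P (n - 1) + 1) (P n + 1)).filter
    (fun p => p.Prime ∧ (m - p).Prime ∧ P (n - 1) + 1 ≤ m - p ∧ m - p ≤ P (n + 1) + 1)).card

/-- If `m` belongs to the `n + 1`-st primorial interval (`n ≥ 1`), then `m = p + q` where `p` is a prime in the
`n`-th primorial interval and `q` is a prime in the `n`-th or in the `n + 1`-st one; moreover, up to a relative
error of at most `ε`, the number of these representations is `sing m * #(n) / log ^ 2 m`. -/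
def Holds (ε : ℝ) (m : ℕ) : Prop :=
  ∀ n : ℕ, 1 ≤ n → P n + 1 ≤ m → m ≤ P (n + 1) + 1 →
    (∃ p q : ℕ, p.Prime ∧ q.Prime ∧ m = p + q ∧ P (n - 1) + 1 ≤ p ∧ p ≤ P n + 1 ∧ P (n - 1) + 1 ≤ q ∧ q ≤ P (n + 1) + 1) ∧
    |(R n m : ℝ) - sing m * P n / Real.log m ^ 2| ≤ ε * (sing m * P n / Real.log m ^ 2)

lemma holds_of (ε : ℝ) (hε : 0 < ε) : ∃ m₀ : ℕ, ∀ m : ℕ, m₀ ≤ m → 2 ∣ m →
    Pool.Agent.W93.PG.WinP (min ε (1 / 2) / 4) 2 m → Holds ε m := by
  obtain ⟨m₀, h0⟩ := Pool.Agent.W93.PG.reps_of_win (min ε (1 / 2)) (lt_min hε (by norm_num))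
    ((min_le_right _ _).trans (by norm_num))
  refine ⟨m₀ + 3, ?_⟩
  intro m hm _ hwin n hn h2 h3
  have h4 := h0 m (by omega) hwin n hn h2 h3
  have hm0 : (3 : ℝ) ≤ m := by exact_mod_cast (by omega : 3 ≤ m)
  have hlog : 0 < Real.log m := Real.log_pos (by linarith)
  have hs := Pool.Agent.W93.GB.one_le_sing m
  have e1 : Pool.Agent.H560R3.GB.sing m = sing m := rfl
  rw [e1] at hs h4
  have hP : (0 : ℝ) < P n := by exact_mod_cast Pool.Agent.W93.PG.PR_pos n
  have hmain : 0 < sing m * P n / Real.log m ^ 2 := by positivity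
  have hR : R n m = Pool.Agent.W93.PG.reps n m := rfl
  have hPR : Pool.Agent.W93.PG.PR n = P n := rfl
  rw [← hR, hPR] at h4
  have h5 : |(R n m : ℝ) - sing m * P n / Real.log m ^ 2| ≤ ε * (sing m * P n / Real.log m ^ 2) :=
    h4.trans (mul_le_mul_of_nonneg_right (min_le_left _ _) hmain.le)
  have h6 : |(R n m : ℝ) - sing m * P n / Real.log m ^ 2| ≤ 1 / 2 * (sing m * P n / Real.log m ^ 2) :=
    h4.trans (mul_le_mul_of_nonneg_right (min_le_right _ _) hmain.le)
  refine ⟨?_, h5⟩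
  have h7 : (0 : ℝ) < R n m := by
    rw [abs_le] at h6
    linarith [h6.1]
  have h8 : 0 < R n m := by exact_mod_cast h7
  unfold R at h8
  rw [card_pos] at h8
  obtain ⟨p, hp⟩ := h8
  rw [mem_filter, mem_Icc] at hp
  obtain ⟨⟨p1, p2⟩, p3, p4, p5, p6⟩ := hp
  exact ⟨p, m - p, p3, p4, by have := p4.pos; omega, p1, p2, p5, p6⟩

lemma holds_mono (ε ε' : ℝ) (m : ℕ) (hε : ε ≤ ε') (h : Holds ε m) : Holds ε' m := by
  intro n hn h1 h2
  obtain ⟨h3, h4⟩ := h n hn h1 h2
  refine ⟨h3, h4.trans ?_⟩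
  have hs : 0 ≤ sing m := le_trans zero_le_one (Pool.Agent.W93.GB.one_le_sing m)
  have hP : (0 : ℝ) < P n := by exact_mod_cast Pool.Agent.W93.PG.PR_pos n
  exact mul_le_mul_of_nonneg_right hε (by positivity)

/-- (1) Let `W`, `U`, `T`, `C`, `δ > 0` and `ε > 0` be fixed, let the real number `N` be large, and let `ν` be any
probability measure on `[0, T]` whose Fourier transform is at most `C |t| ^ (-δ)`. Then for all real `x`, with the exception
of a set of `ν`-measure at most `1 / log ^ U N`, the assertion of the problem holds for ALL the even integers `m > 0` with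
`|m - N x| ≤ log ^ W N`, and the number of the representations required there is as predicted, up to a relative error of at
most `ε`.

(2) Let `ν` be a probability measure on a bounded interval `[0, T]` whose Fourier transform decays at least as fast as some
power `|t| ^ (-δ)`, `δ > 0`, and let `λ_k ≥ exp (k ^ c)` for all large `k`, where `c > 0`. Then `ν`-almost every `x` has the
following property: for all `W` and `ε > 0`, for all large `k`, the same holds for ALL the even integers `m > 0` with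
`|m - λ_k x| ≤ log ^ W λ_k`. In other words, the set of the exceptional `x` has Fourier dimension zero. -/
theorem result :
    (∀ (W U T : ℕ) (C δ ε : ℝ), 0 < δ → 0 < ε → ∃ N₀ : ℕ, ∀ N : ℝ, (N₀ : ℝ) ≤ N → ∀ ν : Measure ℝ, PowerDecay ν T C δ →
      ν.real {x | ∃ m : ℕ, 0 < m ∧ Even m ∧ |(m : ℝ) - N * x| ≤ Real.log N ^ W ∧ ¬ Holds ε m} ≤ 1 / Real.log N ^ U) ∧
    (∀ (T : ℕ) (C δ : ℝ), 0 < δ → ∀ ν : Measure ℝ, PowerDecay ν T C δ → ∀ (lam : ℕ → ℝ) (c : ℝ), 0 < c →
      (∀ᶠ k : ℕ in atTop, Real.exp ((k : ℝ) ^ c) ≤ lam k) →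
      ∀ᵐ x ∂ν, ∀ (W : ℕ) (ε : ℝ), 0 < ε → ∀ᶠ k : ℕ in atTop, ∀ m : ℕ, 0 < m → Even m →
        |(m : ℝ) - lam k * x| ≤ Real.log (lam k) ^ W → Holds ε m) := by
  have key : ∀ (W U T : ℕ) (C δ ε : ℝ), 0 < δ → 0 < ε → ∃ N₀ : ℕ, ∀ N : ℝ, (N₀ : ℝ) ≤ N → ∀ ν : Measure ℝ,
      PowerDecay ν T C δ →
      ν.real {x | ∃ m : ℕ, 0 < m ∧ Even m ∧ |(m : ℝ) - N * x| ≤ Real.log N ^ W ∧ ¬ Holds ε m} ≤ 1 / Real.log N ^ U := by
    intro W U T C δ ε hδ hε
    obtain ⟨m₀, h0⟩ := holds_of ε hε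
    obtain ⟨N₀, h⟩ := Pool.Agent.HP25.FD.gold_decay 2 W U m₀ T C δ (min ε (1 / 2) / 4) hδ
      (div_pos (lt_min hε (by norm_num)) (by norm_num)) (Holds ε) h0
    refine ⟨N₀, fun N hN ν hν => ?_⟩
    have := hν.prob
    exact h N hN ν hν.supp hν.decay
  refine ⟨key, fun T C δ hδ ν hν lam c hc hlam => ?_⟩
  have := hν.prob
  have h1 : ∀ W j : ℕ, ∀ᵐ x ∂ν, ∀ᶠ k : ℕ in atTop,
      x ∉ {x | ∃ m : ℕ, 0 < m ∧ Even m ∧ |(m : ℝ) - lam k * x| ≤ Real.log (lam k) ^ W ∧ ¬ Holds (1 / ((j : ℝ) + 1)) m} := by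
    intro W j
    apply Pool.Agent.HP25.FD.ae_scales ν lam c hc hlam
      (fun N => {x | ∃ m : ℕ, 0 < m ∧ Even m ∧ |(m : ℝ) - N * x| ≤ Real.log N ^ W ∧ ¬ Holds (1 / ((j : ℝ) + 1)) m})
    intro U
    obtain ⟨N₀, h⟩ := key W U T C δ (1 / ((j : ℝ) + 1)) hδ (by positivity)
    exact ⟨N₀, fun N hN => h N hN ν hν⟩
  have h2 : ∀ᵐ x ∂ν, ∀ W j : ℕ, ∀ᶠ k : ℕ in atTop,
      x ∉ {x | ∃ m : ℕ, 0 < m ∧ Even m ∧ |(m : ℝ) - lam k * x| ≤ Real.log (lam k) ^ W ∧ ¬ Holds (1 / ((j : ℝ) + 1)) m} := by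
    rw [ae_all_iff]
    intro W
    rw [ae_all_iff]
    exact h1 W
  filter_upwards [h2] with x hx W ε hε
  obtain ⟨j, hj⟩ := exists_nat_one_div_lt hε
  filter_upwards [hx W j] with k hk m hm1 hm2 hm3
  by_contra hcon
  exact hk ⟨m, hm1, hm2, hm3, fun h => hcon (holds_mono _ _ m hj.le h)⟩

end Pool.Agent.Results.MP_484fb8_nt.FourierDimensionZero
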