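import Pool.Agent.HP25.PD.E
import Pool.Agent.W93.PG7

/-!
# Goldbach representations in primorial intervals, for ALL even integers near almost all values of real polynomials of
any degree `d ≥ 2` at integers with restricted digits
-/

set_option autoImplicit false

namespace Pool.Agent.Results.MP_484fb8_nt.RealPolynomialsDigits

open Finset

/-- The integers below `b ^ k` whose `i`-th digit in base `b` lies in `D i`, for all `i < k`. -/
def S (b : ℕ) (D : ℕ → Finset ℕ) (k : ℕ) : Finset ℕ :=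
  (range (b ^ k)).filter (fun n : ℕ => ∀ i < k, n / b ^ i % b ∈ D i)

/-- The twin prime constant `∏_{p > 2} (1 - 1 / (p - 1) ^ 2)`, as the infimum of the decreasing partial products. -/
noncomputable def C₂ : ℝ := ⨅ z : ℕ, ∏ p ∈ (Icc 3 z).filter Nat.Prime, (1 - 1 / ((p : ℝ) - 1) ^ 2)

/-- The singular series `2 C₂ ∏_{p ∣ m, p > 2} (p - 1) / (p - 2)` of an even number `m`. -/
noncomputable def sing (m : ℕ) : ℝ :=
  2 * C₂ * ∏ p ∈ m.primeFactors.filter (fun p => 2 < p), ((p : ℝ) - 1) / ((p : ℝ) - 2)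

/-- `#(n)`: the product of the first `n` primes. -/
noncomputable def P (n : ℕ) : ℕ := ∏ i ∈ range n, Nat.nth Nat.Prime i

/-- The number of primes `p` in the `n`-th primorial interval such that `m - p` is a prime which lies in the
`n`-th or in the `n + 1`-st primorial interval. -/
noncomputable def R (n m : ℕ) : ℕ :=
  ((Icc (P (n - 1) + 1) (P n + 1)).filter
    (fun p => p.Prime ∧ (m - p).Prime ∧ P (n - 1) + 1 ≤ m - p ∧ m - p ≤ P (n + 1) + 1)).card

/-- If `m` belongs to the `n + 1`-st primorial interval (`n ≥ 1`), then `m = p + q` where `p` is a prime in the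
`n`-th primorial interval and `q` is a prime in the `n`-th or in the `n + 1`-st one; moreover, up to a relative
error of at most `ε`, the number of these representations is `sing m * #(n) / log ^ 2 m`. -/
def Holds (ε : ℝ) (m : ℕ) : Prop :=
  ∀ n : ℕ, 1 ≤ n → P n + 1 ≤ m → m ≤ P (n + 1) + 1 →
    (∃ p q : ℕ, p.Prime ∧ q.Prime ∧ m = p + q ∧ P (n - 1) + 1 ≤ p ∧ p ≤ P n + 1 ∧ P (n - 1) + 1 ≤ q ∧ q ≤ P (n + 1) + 1) ∧
    |(R n m : ℝ) - sing m * P n / Real.log m ^ 2| ≤ ε * (sing m * P n / Real.log m ^ 2)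

open Classical in
/-- The number of the `n` in `S b D k` for which `Holds` fails for some even integer `m > 0` at a distance of at most
`k ^ W` from `f n`. -/
noncomputable def exceptions (b : ℕ) (D : ℕ → Finset ℕ) (k : ℕ) (f : Polynomial ℝ) (ε : ℝ) (W : ℕ) : ℕ :=
  ((S b D k).filter (fun n : ℕ => ∃ m : ℕ, 0 < m ∧ Even m ∧ |(m : ℝ) - f.eval (n : ℝ)| ≤ (k : ℝ) ^ W ∧
    ¬ Holds ε m)).card

lemma holds_of (ε : ℝ) (hε : 0 < ε) : ∃ m₀ : ℕ, ∀ m : ℕ, m₀ ≤ m → 2 ∣ m →
    Pool.Agent.W93.PG.WinP (min ε (1 / 2) / 4) 2 m → Holds ε m := by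
  obtain ⟨m₀, h0⟩ := Pool.Agent.W93.PG.reps_of_win (min ε (1 / 2)) (lt_min hε (by norm_num))
    ((min_le_right _ _).trans (by norm_num))
  refine ⟨m₀ + 3, ?_⟩
  intro m hm _ hwin n hn h2 h3
  have h4 := h0 m (by omega) hwin n hn h2 h3
  have hm0 : (3 : ℝ) ≤ m := by exact_mod_cast (by omega : 3 ≤ m)
  have hlog : 0 < Real.log m := Real.log_pos (by linarith)
  have hs := Pool.Agent.W93.GB.one_le_sing m
  have e1 : Pool.Agent.H560R3.GB.sing m = sing m := rfl
  rw [e1] at hs h4
  have hP : (0 : ℝ) < P n := by exact_mod_cast Pool.Agent.W93.PG.PR_pos n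
  have hmain : 0 < sing m * P n / Real.log m ^ 2 := by positivity
  have hR : R n m = Pool.Agent.W93.PG.reps n m := rfl
  have hPR : Pool.Agent.W93.PG.PR n = P n := rfl
  rw [← hR, hPR] at h4
  have h5 : |(R n m : ℝ) - sing m * P n / Real.log m ^ 2| ≤ ε * (sing m * P n / Real.log m ^ 2) :=
    h4.trans (mul_le_mul_of_nonneg_right (min_le_left _ _) hmain.le)
  have h6 : |(R n m : ℝ) - sing m * P n / Real.log m ^ 2| ≤ 1 / 2 * (sing m * P n / Real.log m ^ 2) :=
    h4.trans (mul_le_mul_of_nonneg_right (min_le_right _ _) hmain.le)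
  refine ⟨?_, h5⟩
  have h7 : (0 : ℝ) < R n m := by
    rw [abs_le] at h6
    linarith [h6.1]
  have h8 : 0 < R n m := by exact_mod_cast h7
  unfold R at h8
  rw [card_pos] at h8
  obtain ⟨p, hp⟩ := h8
  rw [mem_filter, mem_Icc] at hp
  obtain ⟨⟨p1, p2⟩, p3, p4, p5, p6⟩ := hp
  exact ⟨p, m - p, p3, p4, by have := p4.pos; omega, p1, p2, p5, p6⟩

/-- Let `b ≥ 2`, `d ≥ 2`, `T ≥ 1`, `W`, `U` and `ε > 0` be fixed, and let `k` be large. Let `D 0, ..., D (k - 1)` be
arbitrary sets of at least two digits in base `b`, and let `S` be the set of the integers below `b ^ k` whose `i`-th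
digit lies in `D i` for all `i < k` (it has at least `2 ^ k` elements). Let `f` be an arbitrary polynomial of degree `d`
with real coefficients, whose leading coefficient lies between `1 / T` and `T` in absolute value, and with
`f (n) ≤ T b ^ (d k)` for the `n ∈ S`. Then for all `n ∈ S`, with at most `#S / k ^ U` exceptions, the assertion of the
problem holds for ALL the even integers `m > 0` at a distance of at most `k ^ W` from `f (n)`, and the number of the
representations required there is as predicted, up to a relative error of at most `ε`. -/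
theorem result (b d T W U : ℕ) (hb : 2 ≤ b) (hd : 2 ≤ d) (hT : 1 ≤ T) (ε : ℝ) (hε : 0 < ε) :
    ∃ k₀ : ℕ, ∀ k : ℕ, k₀ ≤ k → ∀ D : ℕ → Finset ℕ, (∀ i < k, D i ⊆ range b ∧ 2 ≤ (D i).card) →
      ∀ f : Polynomial ℝ, f.natDegree = d → 1 / (T : ℝ) ≤ |f.leadingCoeff| → |f.leadingCoeff| ≤ T →
      (∀ n ∈ S b D k, f.eval (n : ℝ) ≤ T * (b : ℝ) ^ (d * k)) →
      (exceptions b D k f ε W : ℝ) ≤ (S b D k).card / (k : ℝ) ^ U := by
  classical
  obtain ⟨e, rfl⟩ : ∃ e, d = e + 2 := ⟨d - 2, by omega⟩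
  obtain ⟨m₀, h0⟩ := holds_of ε hε
  obtain ⟨k₀, h⟩ := Pool.Agent.HP25.PD.near_poly b e T 2 W U m₀ T T hb (min ε (1 / 2) / 4)
    (div_pos (lt_min hε (by norm_num)) (by norm_num)) (Holds ε) h0
  refine ⟨k₀, fun k hk D hD f hf h1 h2 h3 => ?_⟩
  have hTr : (0 : ℝ) < T := by exact_mod_cast hT
  unfold exceptions
  refine h k hk D hD f.leadingCoeff (fun x => f.eval x) h2 ?_ (Pool.Agent.HP25.PD.pl_poly e f hf) h3 _ (fun n hn => hn)
  rw [div_le_iff₀ hTr] at h1
  linarith

end Pool.Agent.Results.MP_484fb8_nt.RealPolynomialsDigits
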