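import Pool.Agent.Results.MP_629a14_nt.SimultaneousRepresentations
import Pool.Agent.W93.PG7

/-!
# Binary and simultaneous Goldbach representations within primorial intervals for all integers near independent random
numbers with small collision probabilities

Derived from `Pool.Agent.Results.MP_629a14_nt.SimultaneousRepresentations` (the law of the counts of the representations in
intervals for all integers near random numbers of arbitrary laws, under the hypothesis on the collision probabilities). New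
here: the passage to the primorial intervals, for one or several even integers at once, and the elimination of the small
values of the random numbers by the hypothesis on the collisions.
-/

set_option autoImplicit false

namespace Pool.Agent.Results.MP_484fb8_nt.SimultaneousCollisions

open Finset Filter

/-- `#(n)`: the product of the first `n` primes. -/
noncomputable def P (n : ℕ) : ℕ := ∏ i ∈ range n, Nat.nth Nat.Prime i

/-- For every prime `p` there is an integer `r` such that `p` divides none of the `r + h i`. -/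
def Admissible {k : ℕ} (h : Fin k → ℕ) : Prop := ∀ p : ℕ, p.Prime → ∃ r : ℤ, ∀ i, ¬ (p : ℤ) ∣ r + h i

/-- The number `ν_p` of the distinct residues modulo `p` among the `h i`. -/
def nu {k : ℕ} (h : Fin k → ℕ) (p : ℕ) : ℕ := (univ.image fun i => h i % p).card

/-- The product of the factors of the singular series of the `h i` over the primes `p ≤ z`. -/
noncomputable def sing {k : ℕ} (h : Fin k → ℕ) (z : ℕ) : ℝ :=
  ∏ p ∈ (Icc 1 z).filter Nat.Prime, ((1 - 1 / (p : ℝ)) ^ k)⁻¹ * (1 - (nu h p : ℝ) / p)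

/-- The number of the primes `p` in the `n`-th primorial interval such that every `m i - p` is a prime which lies in the
`n`-th or in the `n + 1`-st primorial interval. -/
noncomputable def R (n : ℕ) {s : ℕ} (m : Fin s → ℕ) : ℕ :=
  ((Icc (P (n - 1) + 1) (P n + 1)).filter
    (fun p => p.Prime ∧ ∀ i, (m i - p).Prime ∧ P (n - 1) + 1 ≤ m i - p ∧ m i - p ≤ P (n + 1) + 1)).card

/-- The number of the primes `p` with `y₁ < p ≤ y₂` for which all the numbers `m i - p` are primes. -/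
def cnt {s : ℕ} (m : Fin s → ℕ) (y₁ y₂ : ℕ) : ℕ := ((Ioc y₁ y₂).filter (fun p => p.Prime ∧ ∀ i, (m i - p).Prime)).card

/-- If all the `m i` belong to the `n + 1`-st primorial interval, then the singular series `S` of `0, m 1, ..., m s`
converges, and if `0, m 1, ..., m s` is admissible, then `S > 0` and
(a) there is ONE prime `p` in the `n`-th primorial interval such that every `m i` is `p + q` with a prime `q` in the `n`-th or
in the `n + 1`-st interval;
(b) the number of these `p` is `S #(n) / log ^ (s + 1) #(n)`, up to a relative error of at most `ε`;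
(c) for all `y₁ < y₂ ≤ #(n)` with `y₂ - y₁ ≥ #(n) / log ^ A #(n)` the number of the primes `p` in `(y₁, y₂]` for which all the
`m i - p` are primes is `S (y₂ - y₁) / log ^ (s + 1) #(n)`, up to a relative error of at most `ε`. -/
def Holds (ε : ℝ) (A : ℕ) {s : ℕ} (m : Fin s → ℕ) : Prop :=
  ∀ n : ℕ, 1 ≤ n → (∀ i, P n + 1 ≤ m i ∧ m i ≤ P (n + 1) + 1) →
    ∃ S : ℝ, Tendsto (sing (Fin.cons 0 m : Fin (s + 1) → ℕ)) atTop (nhds S) ∧
      (Admissible (Fin.cons 0 m : Fin (s + 1) → ℕ) → 0 < S ∧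
        (∃ p : ℕ, p.Prime ∧ P (n - 1) + 1 ≤ p ∧ p ≤ P n + 1 ∧
          ∀ i, ∃ q : ℕ, q.Prime ∧ m i = p + q ∧ P (n - 1) + 1 ≤ q ∧ q ≤ P (n + 1) + 1) ∧
        |(R n m : ℝ) - S * P n / Real.log (P n) ^ (s + 1)| ≤ ε * (S * P n / Real.log (P n) ^ (s + 1)) ∧
        ∀ y₁ y₂ : ℕ, y₁ < y₂ → y₂ ≤ P n → (P n : ℝ) / Real.log (P n) ^ A ≤ (y₂ : ℝ) - y₁ →
          |(cnt m y₁ y₂ : ℝ) - S * ((y₂ : ℝ) - y₁) / Real.log (P n) ^ (s + 1)| ≤
            ε * (S * ((y₂ : ℝ) - y₁) / Real.log (P n) ^ (s + 1)))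

/-- The twin prime constant `∏_{p > 2} (1 - 1 / (p - 1) ^ 2)`, as the infimum of the decreasing partial products. -/
noncomputable def C₂ : ℝ := ⨅ z : ℕ, ∏ p ∈ (Icc 3 z).filter Nat.Prime, (1 - 1 / ((p : ℝ) - 1) ^ 2)

/-- The singular series `2 C₂ ∏_{p ∣ m, p > 2} (p - 1) / (p - 2)` of an even number `m`. -/
noncomputable def sing₂ (m : ℕ) : ℝ :=
  2 * C₂ * ∏ p ∈ m.primeFactors.filter (fun p => 2 < p), ((p : ℝ) - 1) / ((p : ℝ) - 2)

open Classical in
/-- The probability that `|X₁ + ... + X_q - X'₁ - ... - X'_q| ≤ 1`, if the `X_j` and `X'_j` are independent random numbers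
which take the value `a x` with the probability `p x`. -/
noncomputable def collision {ι : Type} [Fintype ι] (q : ℕ) (p a : ι → ℝ) : ℝ :=
  ∑ x : Fin q → ι, ∑ y : Fin q → ι, if |∑ j, a (x j) - ∑ j, a (y j)| ≤ 1 then (∏ j, p (x j)) * ∏ j, p (y j) else 0

open Classical in
/-- The probability of the event `E` if the `x i` are independent and `x i` takes each value `y` with the probability
`p i y`. -/
noncomputable def Prob {r : ℕ} {ι : Fin r → Type} [∀ i, Fintype (ι i)] (p : ∀ i, ι i → ℝ) (E : (∀ i, ι i) → Prop) : ℝ :=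
  ∑ x : (∀ i, ι i), if E x then ∏ i, p i (x i) else 0

namespace Aux

/-- Small values are rare if the collision probability is small. -/
lemma conc {ι : Type} [Fintype ι] (q : ℕ) (p a : ι → ℝ) (hp : ∀ x, 0 ≤ p x) (ha : ∀ x, 0 ≤ a x) (L : ℝ) (hL : 0 ≤ L)
    (J : Finset ι) (hJ : ∀ x ∈ J, a x ≤ L) :
    ((∑ x ∈ J, p x) ^ q) ^ 2 ≤ (q * L + 1) * collision q p a := by
  classical
  obtain ⟨T, hT⟩ : ∃ T : Finset (Fin q → ι), T = Fintype.piFinset (fun _ => J) := ⟨_, rfl⟩
  obtain ⟨w, hw⟩ : ∃ w : (Fin q → ι) → ℝ, w = fun x => ∏ j, p (x j) := ⟨_, rfl⟩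
  obtain ⟨sm, hsm⟩ : ∃ sm : (Fin q → ι) → ℝ, sm = fun x => ∑ j, a (x j) := ⟨_, rfl⟩
  have hw0 : ∀ x, 0 ≤ w x := fun x => by rw [hw]; exact prod_nonneg fun j _ => hp _
  have e1 : (∑ x ∈ J, p x) ^ q = ∑ x ∈ T, w x := by
    have g1 := prod_univ_sum (fun _ : Fin q => J) (fun _ x => p x)
    rw [prod_const, card_univ, Fintype.card_fin] at g1
    rw [g1, hT, hw]
  obtain ⟨M, hM⟩ : ∃ M : ℕ, M = ⌊(q : ℝ) * L⌋₊ + 1 := ⟨_, rfl⟩
  have hMr : (M : ℝ) ≤ q * L + 1 := by
    rw [hM]
    push_cast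
    have := Nat.floor_le (show 0 ≤ (q : ℝ) * L by positivity)
    linarith
  have hmaps : ∀ x ∈ T, ⌊sm x⌋₊ ∈ range M := by
    intro x hx
    rw [hT, Fintype.mem_piFinset] at hx
    rw [mem_range, hM, Nat.lt_succ_iff]
    apply Nat.floor_le_floor
    rw [hsm]
    calc ∑ j, a (x j) ≤ ∑ _j : Fin q, L := sum_le_sum fun j _ => hJ _ (hx j)
      _ = q * L := by rw [sum_const, card_univ, Fintype.card_fin, nsmul_eq_mul]
  have hs0 : ∀ x, 0 ≤ sm x := fun x => by rw [hsm]; exact sum_nonneg fun j _ => ha _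
  rw [e1, ← sum_fiberwise_of_maps_to hmaps w]
  calc (∑ c ∈ range M, ∑ x ∈ T with ⌊sm x⌋₊ = c, w x) ^ 2
      ≤ (range M).card * ∑ c ∈ range M, (∑ x ∈ T with ⌊sm x⌋₊ = c, w x) ^ 2 := sq_sum_le_card_mul_sum_sq
    _ = M * ∑ x ∈ T, w x * ∑ y ∈ T with ⌊sm y⌋₊ = ⌊sm x⌋₊, w y := by
        rw [card_range]
        congr 1
        rw [← sum_fiberwise_of_maps_to hmaps (fun x => w x * ∑ y ∈ T with ⌊sm y⌋₊ = ⌊sm x⌋₊, w y)]
        apply sum_congr rfl
        intro c _
        rw [sq, sum_mul]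
        apply sum_congr rfl
        intro x hx
        rw [mem_filter] at hx
        rw [hx.2]
    _ ≤ M * collision q p a := by
        apply mul_le_mul_of_nonneg_left _ (Nat.cast_nonneg _)
        unfold collision
        calc ∑ x ∈ T, w x * ∑ y ∈ T with ⌊sm y⌋₊ = ⌊sm x⌋₊, w y
            ≤ ∑ x : Fin q → ι, w x * ∑ y ∈ T with ⌊sm y⌋₊ = ⌊sm x⌋₊, w y := by
              apply sum_le_sum_of_subset_of_nonneg (subset_univ _)
              intro x _ _
              exact mul_nonneg (hw0 x) (sum_nonneg fun y _ => hw0 y)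
          _ ≤ _ := by
              apply sum_le_sum
              intro x _
              rw [mul_sum, sum_filter]
              calc ∑ y ∈ T, (if ⌊sm y⌋₊ = ⌊sm x⌋₊ then w x * w y else 0)
                  ≤ ∑ y : Fin q → ι, (if ⌊sm y⌋₊ = ⌊sm x⌋₊ then w x * w y else 0) := by
                    apply sum_le_sum_of_subset_of_nonneg (subset_univ _)
                    intro y _ _
                    split_ifs
                    · exact mul_nonneg (hw0 x) (hw0 y)
                    · exact le_rfl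
                _ ≤ _ := by
                    apply sum_le_sum
                    intro y _
                    have h1 := hs0 x
                    have h2 := hs0 y
                    by_cases h : ⌊sm y⌋₊ = ⌊sm x⌋₊
                    · have g1 := Nat.floor_le h1
                      have g2 := Nat.lt_floor_add_one (sm x)
                      have g3 := Nat.floor_le h2
                      have g4 := Nat.lt_floor_add_one (sm y)
                      rw [h] at g3 g4
                      have g5 : |∑ j, a (x j) - ∑ j, a (y j)| ≤ 1 := by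
                        have e1 : ∑ j, a (x j) = sm x := by rw [hsm]
                        have e2 : ∑ j, a (y j) = sm y := by rw [hsm]
                        rw [e1, e2, abs_le]
                        constructor <;> linarith
                      rw [if_pos h, if_pos g5, hw]
                    · rw [if_neg h]
                      split_ifs
                      · rw [← show w x = ∏ j, p (x j) by rw [hw], ← show w y = ∏ j, p (y j) by rw [hw]]
                        exact mul_nonneg (hw0 x) (hw0 y)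
                      · exact le_rfl
    _ ≤ _ := by
        apply mul_le_mul_of_nonneg_right hMr
        unfold collision
        apply sum_nonneg
        intro x _
        apply sum_nonneg
        intro y _
        split_ifs
        · exact mul_nonneg (prod_nonneg fun j _ => hp _) (prod_nonneg fun j _ => hp _)
        · exact le_rfl

lemma near_one (k : ℕ) (ε : ℝ) (hε : 0 < ε) : ∃ δ : ℝ, 0 < δ ∧ δ < 1 / 2 ∧ (1 + δ) ^ k ≤ 1 + ε ∧ 1 - ε ≤ (1 - δ) ^ k := by
  have h1 : Tendsto (fun δ : ℝ => (1 + δ) ^ k) (nhds 0) (nhds 1) := by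
    have : Continuous (fun δ : ℝ => (1 + δ) ^ k) := by fun_prop
    have h := this.tendsto 0
    simpa using h
  obtain ⟨r, hr, h2⟩ := Metric.eventually_nhds_iff.1 (Metric.tendsto_nhds.1 h1 ε hε)
  obtain ⟨δ, hδ⟩ : ∃ δ : ℝ, δ = min (r / 2) (1 / 4) := ⟨_, rfl⟩
  have d0 : 0 < δ := by rw [hδ]; exact lt_min (by linarith) (by norm_num)
  have d1 : δ ≤ r / 2 := by rw [hδ]; exact min_le_left _ _
  have d2 : δ ≤ 1 / 4 := by rw [hδ]; exact min_le_right _ _
  refine ⟨δ, d0, by linarith, ?_, ?_⟩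
  · have h3 := h2 (y := δ) (by rw [Real.dist_eq, sub_zero, abs_of_pos d0]; linarith)
    rw [Real.dist_eq] at h3
    have := (abs_lt.1 h3).2
    linarith
  · have h3 := h2 (y := -δ) (by rw [Real.dist_eq, sub_zero, abs_neg, abs_of_pos d0]; linarith)
    rw [Real.dist_eq] at h3
    have := (abs_lt.1 h3).1
    rw [← sub_eq_add_neg] at this
    linarith

lemma P_eq (n : ℕ) : P n = Pool.Agent.W93.PG.PR n := rfl

lemma P_pos (n : ℕ) : 0 < P n := Pool.Agent.W93.PG.PR_pos n

lemma scale (s A B : ℕ) (ε : ℝ) (hε : 0 < ε) : ∃ N₀ : ℕ, ∀ N : ℕ, N₀ ≤ N → ∀ n : ℕ, 1 ≤ n → ∀ m : ℕ,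
    (N : ℝ) / Real.log N ^ B ≤ m → (m : ℝ) ≤ 2 * N → P n + 1 ≤ m → m ≤ P (n + 1) + 1 →
    (1 - ε) * Real.log (P n) ^ (s + 1) ≤ Real.log N ^ (s + 1) ∧ Real.log N ^ (s + 1) ≤ (1 + ε) * Real.log (P n) ^ (s + 1) ∧
    2 * (P (n - 1) : ℝ) ≤ ε * P n ∧ 1 ≤ ε * P n ∧ 1 ≤ Real.log (P n) ∧
    (N : ℝ) / Real.log N ^ (A + B + 3) ≤ P n / Real.log (P n) ^ A ∧ 2 * ((N : ℝ) / Real.log N ^ (B + 2)) ≤ P n := by
  obtain ⟨n0, h0⟩ := Pool.Agent.W93.PG.next_prime
  obtain ⟨n1, hn1⟩ := exists_nat_ge (2 / ε)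
  obtain ⟨δ, d0, d1, d2, d3⟩ := near_one (s + 1) ε hε
  have e0 : Tendsto (fun N : ℕ => Real.log (N : ℝ)) atTop atTop := Real.tendsto_log_atTop.comp tendsto_natCast_atTop_atTop
  have e1 := e0.eventually ((Real.isLittleO_log_id_atTop.def (c := δ / (4 * ((B : ℝ) + 2))) (by positivity)))
  have e2 := e0.eventually_ge_atTop (2 ^ A + 20 + 4 / δ)
  have e3 := (tendsto_natCast_atTop_atTop (R := ℝ)).eventually
      ((isLittleO_log_rpow_atTop (r := 1 / (2 * ((B : ℝ) + 1))) (by positivity)).def (c := 1) one_pos)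
  have e4 := (tendsto_natCast_atTop_atTop (R := ℝ)).eventually_ge_atTop (((P (n0 + n1 + 2) : ℝ) + 3) ^ 2)
  obtain ⟨N₀, h1⟩ := eventually_atTop.1 ((e1.and e2).and (e3.and e4))
  refine ⟨N₀ + 1, fun N hN n hn m hm1 hm2 hm3 hm4 => ?_⟩
  obtain ⟨⟨g1, g2⟩, g3, g4⟩ := h1 N (by omega)
  have hN1 : (1 : ℝ) ≤ N := by exact_mod_cast (by omega : 1 ≤ N)
  have hN0 : (0 : ℝ) < N := by linarith
  obtain ⟨l, hl⟩ : ∃ l, l = Real.log (N : ℝ) := ⟨_, rfl⟩
  rw [← hl] at g1 g2 g3 hm1 ⊢
  have h2A : (1 : ℝ) ≤ 2 ^ A := one_le_pow₀ (by norm_num)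
  have h4δ : 0 < 4 / δ := by positivity
  have hl20 : 20 ≤ l := by linarith
  have hl0 : 0 < l := by linarith
  have hl1 : 1 ≤ l := by linarith
  have hlog0 : 0 ≤ Real.log l := Real.log_nonneg hl1
  rw [Real.norm_of_nonneg hlog0, id, Real.norm_of_nonneg hl0.le] at g1
  have hlB : ((B : ℝ) + 2) * Real.log l ≤ δ / 4 * l := by
    have e : δ / 4 * l = ((B : ℝ) + 2) * (δ / (4 * ((B : ℝ) + 2)) * l) := by field_simp
    rw [e]
    exact mul_le_mul_of_nonneg_left g1 (by positivity)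
  have hδl : 4 ≤ δ * l := by
    have : 4 / δ ≤ l := by linarith
    rw [div_le_iff₀ d0] at this
    linarith
  -- l^B ≤ √N
  have hlN : l ^ B * (P (n0 + n1 + 2) + 3) ≤ N := by
    have k1 : l ^ B ≤ (N : ℝ) ^ (1 / 2 : ℝ) := by
      rw [Real.norm_of_nonneg hl0.le, Real.norm_of_nonneg (by positivity), one_mul] at g3
      calc l ^ B ≤ ((N : ℝ) ^ (1 / (2 * ((B : ℝ) + 1)))) ^ B := pow_le_pow_left₀ hl0.le g3 B
        _ = (N : ℝ) ^ (1 / (2 * ((B : ℝ) + 1)) * B) := by rw [Real.rpow_mul hN0.le, Real.rpow_natCast]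
        _ ≤ (N : ℝ) ^ (1 / 2 : ℝ) := by
            apply Real.rpow_le_rpow_of_exponent_le hN1
            rw [one_div, inv_mul_le_iff₀ (by positivity)]
            linarith
    have k2 : (P (n0 + n1 + 2) : ℝ) + 3 ≤ (N : ℝ) ^ (1 / 2 : ℝ) := by
      rw [← Real.sqrt_eq_rpow]
      exact Real.le_sqrt_of_sq_le g4
    calc l ^ B * (P (n0 + n1 + 2) + 3) ≤ (N : ℝ) ^ (1 / 2 : ℝ) * (N : ℝ) ^ (1 / 2 : ℝ) := by
          apply mul_le_mul k1 k2 (by positivity) (by positivity)
      _ = N := by rw [← Real.rpow_add hN0]; norm_num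
  have hm5 : (P (n0 + n1 + 2) : ℝ) + 3 ≤ m := by
    refine le_trans ?_ hm1
    rw [le_div_iff₀ (by positivity)]
    linarith
  have hm6 : P (n0 + n1 + 2) + 3 ≤ m := by exact_mod_cast hm5
  have hnn : n0 + n1 + 2 ≤ n := by
    by_contra hcon
    have : P (n + 1) ≤ P (n0 + n1 + 2) := Pool.Agent.W93.PG.PR_mono (by omega)
    omega
  have hnext := h0 n (by omega)
  rw [← P_eq] at hnext
  obtain ⟨Q, hQ⟩ : ∃ Q : ℕ, Q = P n := ⟨_, rfl⟩
  rw [← hQ] at hnext hm3 ⊢
  have hQ1 : 1 ≤ Q := by rw [hQ]; exact P_pos n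
  have hQr : (1 : ℝ) ≤ Q := by exact_mod_cast hQ1
  have hQm : (Q : ℝ) ≤ m := by exact_mod_cast (by omega : Q ≤ m)
  have hlQ : Real.log Q ≤ l + 1 := by
    calc Real.log Q ≤ Real.log (2 * N) := Real.log_le_log (by linarith) (hQm.trans hm2)
      _ = Real.log 2 + l := by rw [Real.log_mul (by norm_num) hN0.ne', hl]
      _ ≤ l + 1 := by have := Real.log_two_lt_d9; linarith
  have hPn1 : (P (n + 1) : ℝ) = Q * Nat.nth Nat.Prime n := by
    have := Pool.Agent.W93.PG.PR_succ n
    rw [← P_eq, ← P_eq, ← hQ] at this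
    exact_mod_cast this
  have hmQ : (m : ℝ) ≤ Q * (4 * l + 6) := by
    have k1 : (m : ℝ) ≤ P (n + 1) + 1 := by exact_mod_cast hm4
    rw [hPn1] at k1
    have k2 : (Q : ℝ) * Nat.nth Nat.Prime n ≤ Q * (4 * l + 5) :=
      mul_le_mul_of_nonneg_left (by linarith) (by linarith)
    nlinarith
  have hmQ2 : 2 * (m : ℝ) ≤ Q * l ^ 2 := by
    have k1 : 2 * (4 * l + 6) ≤ l ^ 2 := by nlinarith
    have k2 : (Q : ℝ) * (2 * (4 * l + 6)) ≤ Q * l ^ 2 := mul_le_mul_of_nonneg_left k1 (by linarith)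
    linarith
  have hNQ : 2 * ((N : ℝ) / l ^ (B + 2)) ≤ Q := by
    rw [pow_add, ← div_div, mul_div_assoc', div_le_iff₀ (by positivity)]
    linarith
  have hlQ2 : l - (B + 2) * Real.log l ≤ Real.log Q := by
    have k1 : (N : ℝ) / l ^ (B + 2) ≤ Q := by
      have : 0 ≤ (N : ℝ) / l ^ (B + 2) := by positivity
      linarith
    have k2 := Real.log_le_log (by positivity) k1
    rw [Real.log_div hN0.ne' (by positivity), Real.log_pow, ← hl] at k2
    push_cast at k2
    exact k2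
  have hlQ3 : l / 2 ≤ Real.log Q := by nlinarith
  obtain ⟨q, hq⟩ : ∃ q : ℕ, q = P (n - 1) := ⟨_, rfl⟩
  have hQq : (Q : ℝ) = q * Nat.nth Nat.Prime (n - 1) := by
    have := Pool.Agent.W93.PG.PR_succ (n - 1)
    rw [← P_eq, ← P_eq, ← hq, show n - 1 + 1 = n by omega, ← hQ] at this
    exact_mod_cast this
  have hq1 : (1 : ℝ) ≤ q := by
    have : 0 < q := by rw [hq]; exact P_pos _
    exact_mod_cast this
  have hpp : 2 / ε ≤ (Nat.nth Nat.Prime (n - 1) : ℝ) := by
    have k1 := Nat.add_two_le_nth_prime (n - 1)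
    exact hn1.trans (by exact_mod_cast (by omega : n1 ≤ Nat.nth Nat.Prime (n - 1)))
  rw [div_le_iff₀ hε] at hpp
  have hqQ : 2 * (q : ℝ) ≤ ε * Q := by
    rw [hQq]
    nlinarith
  rw [← hq]
  refine ⟨?_, ?_, hqQ, by linarith, by linarith, ?_, hNQ⟩
  · have k1 : (1 - δ) * Real.log Q ≤ l := by nlinarith
    calc (1 - ε) * Real.log Q ^ (s + 1) ≤ (1 - δ) ^ (s + 1) * Real.log Q ^ (s + 1) :=
          mul_le_mul_of_nonneg_right d3 (pow_nonneg (by linarith) _)
      _ = ((1 - δ) * Real.log Q) ^ (s + 1) := by rw [mul_pow]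
      _ ≤ l ^ (s + 1) := pow_le_pow_left₀ (mul_nonneg (by linarith) (by linarith)) k1 _
  · have k1 : l ≤ (1 + δ) * Real.log Q := by nlinarith
    calc l ^ (s + 1) ≤ ((1 + δ) * Real.log Q) ^ (s + 1) := pow_le_pow_left₀ hl0.le k1 _
      _ = (1 + δ) ^ (s + 1) * Real.log Q ^ (s + 1) := by rw [mul_pow]
      _ ≤ (1 + ε) * Real.log Q ^ (s + 1) := mul_le_mul_of_nonneg_right d2 (pow_nonneg (by linarith) _)
  · have k1 : Real.log Q ^ A ≤ l ^ (A + 1) := by
      calc Real.log Q ^ A ≤ (2 * l) ^ A := pow_le_pow_left₀ (by linarith) (by linarith) _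
        _ = 2 ^ A * l ^ A := by rw [mul_pow]
        _ ≤ l * l ^ A := mul_le_mul_of_nonneg_right (by linarith) (by positivity)
        _ = l ^ (A + 1) := by ring
    have k2 : 0 < Real.log Q ^ A := pow_pos (by linarith) _
    calc (N : ℝ) / l ^ (A + B + 3) = (N / l ^ (B + 2)) / l ^ (A + 1) := by
          rw [div_div, ← pow_add]
          congr 2
          ring
      _ ≤ Q / l ^ (A + 1) := by
          apply div_le_div_of_nonneg_right _ (by positivity)
          have : 0 ≤ (N : ℝ) / l ^ (B + 2) := by positivity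
          linarith
      _ ≤ Q / Real.log Q ^ A := div_le_div_of_nonneg_left (by linarith) k2 k1

lemma conv (a b X c ε : ℝ) (hb : 0 < b) (hε : 0 < ε) (hε1 : ε ≤ 1 / 32) (h1 : (1 - ε) * b ≤ a) (h2 : a ≤ (1 + ε) * b)
    (hX : 0 ≤ X) (h : |c - X / a| ≤ ε * (X / a)) : |c - X / b| ≤ 4 * ε * (X / b) := by
  have ha : 0 < a := lt_of_lt_of_le (mul_pos (by linarith) hb) h1
  obtain ⟨t, ht⟩ : ∃ t, t = X / b := ⟨_, rfl⟩
  obtain ⟨u, hu⟩ : ∃ u, u = X / a := ⟨_, rfl⟩
  rw [← hu] at h
  rw [← ht]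
  have ht0 : 0 ≤ t := by rw [ht]; positivity
  have e1 : u * a = t * b := by rw [hu, ht, div_mul_cancel₀ _ ha.ne', div_mul_cancel₀ _ hb.ne']
  have hu0 : 0 ≤ u := by rw [hu]; positivity
  have k1 : (1 - ε) * u ≤ t := by
    have : u * ((1 - ε) * b) ≤ t * b := by rw [← e1]; exact mul_le_mul_of_nonneg_left h1 hu0
    have k : ((1 - ε) * u) * b ≤ t * b := by linarith
    exact le_of_mul_le_mul_right k hb
  have k2 : t ≤ (1 + ε) * u := by
    have : t * b ≤ u * ((1 + ε) * b) := by rw [← e1]; exact mul_le_mul_of_nonneg_left h2 hu0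
    have k : t * b ≤ ((1 + ε) * u) * b := by linarith
    exact le_of_mul_le_mul_right k hb
  have k3 : u ≤ 2 * t := by nlinarith
  have k4 : ε * u ≤ ε * (2 * t) := mul_le_mul_of_nonneg_left k3 hε.le
  rw [abs_le] at h ⊢
  constructor <;> linarith [h.1, h.2]

lemma conv2 (S l Q b c ε : ℝ) (hb : 0 < b) (hS : 0 ≤ S) (hQ : 0 < Q) (hε : 0 < ε) (hε1 : ε ≤ 1 / 32)
    (hl : |l - Q| ≤ ε * Q) (h : |c - S * l / b| ≤ 4 * ε * (S * l / b)) : |c - S * Q / b| ≤ 8 * ε * (S * Q / b) := by
  have e1 : S * l / b = S * Q / b + S / b * (l - Q) := by ring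
  have hSb : 0 ≤ S / b := by positivity
  have e2 : |S / b * (l - Q)| ≤ ε * (S * Q / b) := by
    rw [abs_mul, abs_of_nonneg hSb]
    calc S / b * |l - Q| ≤ S / b * (ε * Q) := mul_le_mul_of_nonneg_left hl hSb
      _ = ε * (S * Q / b) := by ring
  obtain ⟨t, ht⟩ : ∃ t, t = S * Q / b := ⟨_, rfl⟩
  rw [← ht] at e1 e2 ⊢
  have ht0 : 0 ≤ t := by rw [ht]; positivity
  rw [e1] at h
  have k : ε * (ε * t) ≤ 1 / 32 * (ε * t) := mul_le_mul_of_nonneg_right hε1 (by positivity)
  rw [abs_le] at e2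
  have k2 : 4 * ε * (t + S / b * (l - Q)) ≤ 4 * ε * (t + ε * t) :=
    mul_le_mul_of_nonneg_left (by linarith [e2.2]) (by positivity)
  rw [abs_le] at h ⊢
  constructor <;> nlinarith [h.1, h.2, e2.1, e2.2]

lemma det (s : ℕ) (hs : 1 ≤ s) (A B : ℕ) (ε : ℝ) (hε : 0 < ε) : ∃ N₀ : ℕ, ∀ N : ℕ, N₀ ≤ N → ∀ U : ℕ, ∀ m : Fin s → ℕ,
    (∀ i, (N : ℝ) / Real.log N ^ B ≤ m i ∧ (m i : ℝ) ≤ 2 * N) →
    Pool.Agent.Results.MP_629a14_nt.SimultaneousRepresentations.Holds (min ε (1 / 2) / 16) (A + B + 3) U N m →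
    Holds ε A m := by
  obtain ⟨ε', hε'⟩ : ∃ ε' : ℝ, ε' = min ε (1 / 2) / 16 := ⟨_, rfl⟩
  have hε0 : 0 < ε' := by rw [hε']; exact div_pos (lt_min hε (by norm_num)) (by norm_num)
  have hε1 : ε' ≤ 1 / 32 := by
    rw [hε']
    have := min_le_right ε (1 / 2)
    linarith
  have hε2 : 16 * ε' ≤ ε := by
    rw [hε']
    have := min_le_left ε (1 / 2)
    linarith
  rw [← hε']
  obtain ⟨N1, h1⟩ := scale s A B ε' hε0
  have e0 : Tendsto (fun N : ℕ => Real.log (N : ℝ)) atTop atTop := Real.tendsto_log_atTop.comp tendsto_natCast_atTop_atTop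
  obtain ⟨N2, h2⟩ := eventually_atTop.1 (e0.eventually_ge_atTop 1)
  refine ⟨N1 + N2 + 1, fun N hN U m hm hH n hn hmn => ?_⟩
  have hl1 := h2 N (by omega)
  have hi0 : Fin s := ⟨0, hs⟩
  have hsc : ∀ i, _ := fun i => h1 N (by omega) n hn (m i) (hm i).1 (hm i).2 (hmn i).1 (hmn i).2
  obtain ⟨c1, c2, c3, c4, c5, c6, c7⟩ := hsc hi0
  obtain ⟨S, hS1, hS2, hS3⟩ := hH
  refine ⟨S, hS1, fun had => ?_⟩
  have hSpos : 0 < S := hS2 had
  obtain ⟨Q, hQ⟩ : ∃ Q : ℕ, Q = P n := ⟨_, rfl⟩
  obtain ⟨q, hq⟩ : ∃ q : ℕ, q = P (n - 1) := ⟨_, rfl⟩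
  rw [← hQ] at c1 c2 c3 c4 c5 c6 c7 ⊢
  rw [← hq] at c3 ⊢
  have hNr : (0 : ℝ) < N := by exact_mod_cast (by omega : 0 < N)
  have hQr : (0 : ℝ) < Q := by
    have : 0 < Q := by rw [hQ]; exact P_pos n
    exact_mod_cast this
  have hlQ : 0 < Real.log Q ^ (s + 1) := pow_pos (by linarith) _
  have hqr : (1 : ℝ) ≤ q := by
    have : 0 < q := by rw [hq]; exact P_pos _
    exact_mod_cast this
  -- the counts in windows
  have hwin : ∀ y₁ y₂ : ℕ, y₁ < y₂ → (∀ i, y₂ < m i) → (N : ℝ) / Real.log N ^ (A + B + 3) ≤ (y₂ : ℝ) - y₁ →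
      |(cnt m y₁ y₂ : ℝ) - S * ((y₂ : ℝ) - y₁) / Real.log Q ^ (s + 1)| ≤
        4 * ε' * (S * ((y₂ : ℝ) - y₁) / Real.log Q ^ (s + 1)) := by
    intro y₁ y₂ h12 hy hlen
    obtain ⟨-, k1⟩ := hS3 y₁ y₂ h12 hy
    have k2 := k1 had hlen
    have h12r : (y₁ : ℝ) < y₂ := by exact_mod_cast h12
    exact conv _ _ _ _ ε' hlQ hε0 hε1 c1 c2 (mul_nonneg hSpos.le (by linarith)) k2
  have hlenQ : (N : ℝ) / Real.log N ^ (A + B + 3) ≤ (Q : ℝ) / 2 := by
    have k1 : (N : ℝ) / Real.log N ^ (A + B + 3) ≤ N / Real.log N ^ (B + 2) := by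
      apply div_le_div_of_nonneg_left hNr.le (by positivity)
      exact pow_le_pow_right₀ hl1 (by omega)
    linarith
  -- the representations within the primorial intervals
  have hne : (univ : Finset (Fin s)).Nonempty := ⟨hi0, mem_univ _⟩
  obtain ⟨y₂, hy₂⟩ : ∃ y₂ : ℕ, y₂ = min (Q + 1) ((univ.inf' hne m) - q - 1) := ⟨_, rfl⟩
  have hinf : Q + 1 ≤ univ.inf' hne m := by
    rw [le_inf'_iff]
    intro i _
    rw [hQ]
    exact (hmn i).1
  have hinf2 : ∀ i, univ.inf' hne m ≤ m i := fun i => inf'_le _ (mem_univ i)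
  have hqQ : 64 * q ≤ Q := by
    have : (64 : ℝ) * q ≤ Q := by nlinarith
    exact_mod_cast this
  have hq0 : 0 < q := by rw [hq]; exact P_pos _
  have hy3 : Q ≤ y₂ + q := by
    rw [hy₂]
    omega
  have hy4 : y₂ ≤ Q + 1 := by rw [hy₂]; exact min_le_left _ _
  have hy5 : ∀ i, y₂ + q + 1 ≤ m i := by
    intro i
    have := hinf2 i
    rw [hy₂]
    omega
  have hR : R n m = cnt m q y₂ := by
    unfold R cnt
    rw [← hQ, ← hq]
    congr 1
    ext p
    rw [mem_filter, mem_filter, mem_Icc, mem_Ioc]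
    constructor
    · rintro ⟨⟨g1, g2⟩, g3, g4⟩
      refine ⟨⟨by omega, ?_⟩, g3, fun i => (g4 i).1⟩
      rw [hy₂, le_min_iff]
      refine ⟨g2, ?_⟩
      have : p + q + 1 ≤ univ.inf' hne m := by
        rw [le_inf'_iff]
        intro i _
        have := (g4 i).2.1
        omega
      omega
    · rintro ⟨⟨g1, g2⟩, g3, g4⟩
      refine ⟨⟨by omega, by omega⟩, g3, fun i => ⟨g4 i, ?_, ?_⟩⟩
      · have := hy5 i
        omega
      · have := (hmn i).2
        omega
  have hqy : q < y₂ := by omega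
  have hy3r : (Q : ℝ) ≤ y₂ + q := by exact_mod_cast hy3
  have hy4r : (y₂ : ℝ) ≤ Q + 1 := by exact_mod_cast hy4
  have hqQr : 64 * (q : ℝ) ≤ Q := by exact_mod_cast hqQ
  have hmain : |(R n m : ℝ) - S * Q / Real.log Q ^ (s + 1)| ≤ 8 * ε' * (S * Q / Real.log Q ^ (s + 1)) := by
    have k1 := hwin q y₂ hqy (fun i => by have := hy5 i; omega) (by linarith)
    rw [hR]
    refine conv2 S _ Q _ _ ε' hlQ hSpos.le hQr hε0 hε1 ?_ k1
    rw [abs_le]
    constructor <;> linarith
  have hM0 : 0 < S * Q / Real.log Q ^ (s + 1) := by positivity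
  refine ⟨hSpos, ?_, hmain.trans (mul_le_mul_of_nonneg_right (by linarith) hM0.le), fun y₁ y₂' h12 hy hlen => ?_⟩
  · have k1 : 0 < (R n m : ℝ) := by
      have := (abs_le.1 hmain).1
      nlinarith
    have k2 : 0 < R n m := by exact_mod_cast k1
    unfold R at k2
    rw [card_pos] at k2
    obtain ⟨p, hp⟩ := k2
    rw [mem_filter, mem_Icc, ← hQ, ← hq] at hp
    obtain ⟨⟨g1, g2⟩, g3, g4⟩ := hp
    refine ⟨p, g3, g1, g2, fun i => ⟨m i - p, (g4 i).1, ?_, (g4 i).2.1, (g4 i).2.2⟩⟩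
    have := (g4 i).2.1
    omega
  · have k1 := hwin y₁ y₂' h12 (fun i => by have := (hmn i).1; omega) (c6.trans hlen)
    have h12r : (y₁ : ℝ) < y₂' := by exact_mod_cast h12
    have : 0 ≤ S * ((y₂' : ℝ) - y₁) / Real.log Q ^ (s + 1) :=
      div_nonneg (mul_nonneg hSpos.le (by linarith)) hlQ.le
    exact k1.trans (mul_le_mul_of_nonneg_right (by linarith) this)

/-- The probability that one of the random numbers is small. -/
lemma small (s : ℕ) (q : Fin s → ℕ) (hq : ∀ i, 1 ≤ q i) (κ U : ℕ) : ∃ B N₀ : ℕ, ∀ N, N₀ ≤ N →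
    ∀ (ι : Fin s → Type) [∀ i, Fintype (ι i)] (p a : ∀ i, ι i → ℝ),
      (∀ i, (∀ x, 0 ≤ p i x) ∧ ∑ x, p i x = 1 ∧ (∀ x, 0 ≤ a i x) ∧ collision (q i) (p i) (a i) ≤ Real.log N ^ κ / N) →
      ∀ J : ∀ i, Finset (ι i), (∀ i, ∀ x ∈ J i, a i x ≤ 2 * (N / Real.log N ^ B)) →
        ∑ i, ∑ x ∈ J i, p i x ≤ 1 / Real.log N ^ U := by
  obtain ⟨T, hT⟩ : ∃ T : ℕ, T = ∑ i, q i := ⟨_, rfl⟩
  have hqT : ∀ i, q i ≤ T := fun i => by rw [hT]; exact single_le_sum (fun j _ => Nat.zero_le _) (mem_univ i)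
  obtain ⟨B, hB⟩ : ∃ B : ℕ, B = κ + 1 + 2 * T * (U + 1) := ⟨_, rfl⟩
  have e0 : Tendsto (fun N : ℕ => Real.log (N : ℝ)) atTop atTop := Real.tendsto_log_atTop.comp tendsto_natCast_atTop_atTop
  have e2 := e0.eventually_ge_atTop (3 * (T : ℝ) + s + 1)
  have e3 := (tendsto_natCast_atTop_atTop (R := ℝ)).eventually
      ((isLittleO_log_rpow_atTop (r := 1 / ((B : ℝ) + 1)) (by positivity)).def (c := 1) one_pos)
  obtain ⟨N₀, h1⟩ := eventually_atTop.1 (e2.and e3)
  refine ⟨B, N₀ + 1, fun N hN ι _ p a hX J hJ => ?_⟩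
  obtain ⟨g2, g3⟩ := h1 N (by omega)
  have hN1 : (1 : ℝ) ≤ N := by exact_mod_cast (by omega : 1 ≤ N)
  have hN0 : (0 : ℝ) < N := by linarith
  obtain ⟨l, hl⟩ : ∃ l, l = Real.log (N : ℝ) := ⟨_, rfl⟩
  rw [← hl] at g2 g3 ⊢
  have hT0 : (0 : ℝ) ≤ T := Nat.cast_nonneg T
  have hs0 : (0 : ℝ) ≤ s := Nat.cast_nonneg s
  have hl1 : 1 ≤ l := by linarith
  have hl0 : 0 < l := by linarith
  have hlN : l ^ B ≤ N := by
    rw [Real.norm_of_nonneg hl0.le, Real.norm_of_nonneg (by positivity), one_mul] at g3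
    calc l ^ B ≤ ((N : ℝ) ^ (1 / ((B : ℝ) + 1))) ^ B := pow_le_pow_left₀ hl0.le g3 B
      _ = (N : ℝ) ^ (1 / ((B : ℝ) + 1) * B) := by rw [Real.rpow_mul hN0.le, Real.rpow_natCast]
      _ ≤ (N : ℝ) ^ (1 : ℝ) := by
          apply Real.rpow_le_rpow_of_exponent_le hN1
          rw [one_div, inv_mul_le_iff₀ (by positivity)]
          linarith
      _ = N := Real.rpow_one _
  obtain ⟨L, hL⟩ : ∃ L : ℝ, L = N / l ^ B := ⟨_, rfl⟩
  have hL1 : 1 ≤ L := by rw [hL, le_div_iff₀ (by positivity)]; linarith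
  have key : ∀ i, ∑ x ∈ J i, p i x ≤ 1 / l ^ (U + 1) := by
    intro i
    obtain ⟨k1, k2, k3, k4⟩ := hX i
    have k5 := conc (q i) (p i) (a i) k1 k3 (2 * L) (by linarith) (J i) (fun x hx => by
      rw [hL, hl]
      exact hJ i x hx)
    obtain ⟨t, ht⟩ : ∃ t, t = ∑ x ∈ J i, p i x := ⟨_, rfl⟩
    rw [← ht] at k5 ⊢
    have ht0 : 0 ≤ t := by rw [ht]; exact sum_nonneg fun x _ => k1 x
    have hqr : (1 : ℝ) ≤ q i := by exact_mod_cast hq i
    have hqTr : (q i : ℝ) ≤ T := by exact_mod_cast hqT i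
    rw [← hl] at k4
    have k6 : ((q i : ℝ) * (2 * L) + 1) * collision (q i) (p i) (a i) ≤ 1 / l ^ (2 * T * (U + 1)) := by
      calc ((q i : ℝ) * (2 * L) + 1) * collision (q i) (p i) (a i) ≤ (3 * T * L) * (l ^ κ / N) := by
            apply mul_le_mul _ k4 _ (by positivity)
            · nlinarith
            · unfold collision
              apply sum_nonneg
              intro x _
              apply sum_nonneg
              intro y _
              split_ifs
              · exact mul_nonneg (prod_nonneg fun j _ => k1 _) (prod_nonneg fun j _ => k1 _)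
              · exact le_rfl
        _ ≤ (l * L) * (l ^ κ / N) := by
            apply mul_le_mul_of_nonneg_right _ (by positivity)
            exact mul_le_mul_of_nonneg_right (by linarith) (by linarith)
        _ = 1 / l ^ (2 * T * (U + 1)) := by
            rw [hL, hB, pow_add, pow_succ]
            field_simp
    have k7 : (t ^ (q i)) ^ 2 ≤ ((1 / l ^ (U + 1)) ^ (q i)) ^ 2 := by
      refine (k5.trans k6).trans ?_
      rw [one_div, one_div, inv_pow, inv_pow, ← pow_mul, ← pow_mul]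
      apply inv_anti₀ (by positivity)
      apply pow_le_pow_right₀ hl1
      have := hqT i
      nlinarith
    have k8 : t ^ (q i) ≤ (1 / l ^ (U + 1)) ^ (q i) := (sq_le_sq₀ (by positivity) (by positivity)).1 k7
    exact (pow_le_pow_iff_left₀ ht0 (by positivity) (by have := hq i; omega)).1 k8
  calc ∑ i, ∑ x ∈ J i, p i x ≤ ∑ _i : Fin s, 1 / l ^ (U + 1) := sum_le_sum fun i _ => key i
    _ = s * (1 / l ^ (U + 1)) := by rw [sum_const, card_univ, Fintype.card_fin, nsmul_eq_mul]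
    _ ≤ l * (1 / l ^ (U + 1)) := mul_le_mul_of_nonneg_right (by linarith) (by positivity)
    _ = 1 / l ^ U := by
        rw [pow_succ]
        field_simp

/-- The probability that some coordinate lies in a given set is at most the sum of the probabilities. -/
lemma union_le {s : ℕ} {ι : Fin s → Type} [∀ i, Fintype (ι i)] (p : ∀ i, ι i → ℝ) (hp : ∀ i x, 0 ≤ p i x)
    (hp1 : ∀ i, ∑ x, p i x = 1) (J : ∀ i, Finset (ι i)) :
    Prob p (fun x => ∃ i, x i ∈ J i) ≤ ∑ i, ∑ x ∈ J i, p i x := by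
  classical
  have e0 : Prob p (fun x => ∃ i, x i ∈ J i) = ∑ x : (∀ i, ι i), (if ∃ i, x i ∈ J i then ∏ i, p i (x i) else 0) := by
    unfold Prob
    apply sum_congr rfl
    intro x _
    congr
  rw [e0]
  have h0 : ∀ x : (∀ i, ι i), 0 ≤ ∏ i, p i (x i) := fun x => prod_nonneg fun i _ => hp i _
  calc ∑ x : (∀ i, ι i), (if ∃ i, x i ∈ J i then ∏ i, p i (x i) else 0)
      ≤ ∑ x : (∀ i, ι i), ∑ i, (if x i ∈ J i then ∏ i, p i (x i) else 0) := by
        apply sum_le_sum
        intro x _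
        split_ifs with h
        · obtain ⟨i, hi⟩ := h
          calc ∏ i, p i (x i) = (if x i ∈ J i then ∏ i, p i (x i) else 0) := by rw [if_pos hi]
            _ ≤ _ := single_le_sum (f := fun i => if x i ∈ J i then ∏ i, p i (x i) else 0) (fun j _ => by
                split_ifs
                · exact h0 x
                · exact le_rfl) (mem_univ i)
        · apply sum_nonneg
          intro i _
          split_ifs
          · exact h0 x
          · exact le_rfl
    _ = ∑ i, ∑ x : (∀ i, ι i), (if x i ∈ J i then ∏ i, p i (x i) else 0) := sum_comm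
    _ = ∑ i, ∑ x ∈ J i, p i x := by
        apply sum_congr rfl
        intro i _
        have g1 := prod_univ_sum (fun j => (univ : Finset (ι j)))
          (fun j y => if j = i then (if y ∈ (if h : j = i then (h ▸ J i : Finset (ι j)) else ∅) then p j y else 0) else p j y)
        rw [Fintype.piFinset_univ] at g1
        have g2 : ∀ x : (∀ i, ι i), ∏ j, (if j = i then (if x j ∈ (if h : j = i then (h ▸ J i : Finset (ι j)) else ∅)
            then p j (x j) else 0) else p j (x j)) = if x i ∈ J i then ∏ i, p i (x i) else 0 := by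
          intro x
          rw [← mul_prod_erase univ _ (mem_univ i), ← mul_prod_erase univ (fun j => p j (x j)) (mem_univ i)]
          have g3 : ∏ j ∈ univ.erase i, (if j = i then (if x j ∈ (if h : j = i then (h ▸ J i : Finset (ι j)) else ∅)
            then p j (x j) else 0) else p j (x j)) = ∏ j ∈ univ.erase i, p j (x j) := by
            apply prod_congr rfl
            intro j hj
            rw [if_neg (ne_of_mem_erase hj)]
          rw [g3]
          simp only [if_true, dite_true]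
          split_ifs
          · rfl
          · ring
        rw [← sum_congr rfl fun x _ => g2 x, ← g1, ← mul_prod_erase univ _ (mem_univ i)]
        have g3 : ∏ j ∈ univ.erase i, ∑ y : ι j, (if j = i then (if y ∈ (if h : j = i then (h ▸ J i : Finset (ι j)) else ∅)
            then p j y else 0) else p j y) = 1 := by
          apply prod_eq_one
          intro j hj
          rw [← hp1 j]
          apply sum_congr rfl
          intro y _
          rw [if_neg (ne_of_mem_erase hj)]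
        rw [g3, mul_one]
        simp only [if_true, dite_true]
        rw [← sum_filter]
        congr 1
        ext y
        simp

end Aux

/-- (1) Let `s ≥ 1`, `κ`, `U`, `W`, `A`, `ε > 0` and the orders `q i ≥ 1` (`i < s`) be fixed and let `N` be large. Let
`X i = a i (x i)`, `i < s`, be independent random real numbers in `[0, N]`, each with an ARBITRARY distribution on a finite
set, such that for each `i` the sums of `q i` and of further `q i` independent copies of `X i` differ by at most `1` with a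
probability of at most `log ^ κ N / N`. Then, with a probability of at least `1 - 1 / log ^ U N`, ALL the integers `m i ≥ 0`
with `|m i - X i| ≤ log ^ W N` have the property `Holds`.

(2) In the case `s = 1` the property `Holds` for an even number `m` in the `n + 1`-st primorial interval says: `m = p + q`
with a prime `p` in the `n`-th interval and a prime `q` in the `n`-th or in the `n + 1`-st interval; the number of these
representations is `sing₂ m * #(n) / log ^ 2 #(n)` up to a relative error of at most `ε`; and the same for the `p` in every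
interval `(y₁, y₂]` in `[0, #(n)]` of a length of at least `#(n) / log ^ A #(n)`. -/
theorem result :
    (∀ s : ℕ, 1 ≤ s → ∀ q : Fin s → ℕ, (∀ i, 1 ≤ q i) → ∀ (κ U W A : ℕ) (ε : ℝ), 0 < ε →
      ∃ N₀ : ℕ, ∀ N, N₀ ≤ N → ∀ (ι : Fin s → Type) [∀ i, Fintype (ι i)] (p a : ∀ i, ι i → ℝ),
        (∀ i, (∀ x, 0 ≤ p i x) ∧ ∑ x, p i x = 1 ∧ (∀ x, 0 ≤ a i x ∧ a i x ≤ N) ∧
          collision (q i) (p i) (a i) ≤ Real.log N ^ κ / N) →
        1 - 1 / Real.log N ^ U ≤ Prob p fun x =>
          ∀ m : Fin s → ℕ, (∀ i, |(m i : ℝ) - a i (x i)| ≤ Real.log N ^ W) → Holds ε A m) ∧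
    (∀ (ε : ℝ) (A m n : ℕ), Even m → 1 ≤ n → P n + 1 ≤ m → m ≤ P (n + 1) + 1 → Holds ε A (fun _ : Fin 1 => m) →
      (∃ p q : ℕ, p.Prime ∧ q.Prime ∧ m = p + q ∧ P (n - 1) + 1 ≤ p ∧ p ≤ P n + 1 ∧
        P (n - 1) + 1 ≤ q ∧ q ≤ P (n + 1) + 1) ∧
      |(R n (fun _ : Fin 1 => m) : ℝ) - sing₂ m * P n / Real.log (P n) ^ 2| ≤ ε * (sing₂ m * P n / Real.log (P n) ^ 2) ∧
      ∀ y₁ y₂ : ℕ, y₁ < y₂ → y₂ ≤ P n → (P n : ℝ) / Real.log (P n) ^ A ≤ (y₂ : ℝ) - y₁ →
        |(cnt (fun _ : Fin 1 => m) y₁ y₂ : ℝ) - sing₂ m * ((y₂ : ℝ) - y₁) / Real.log (P n) ^ 2| ≤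
          ε * (sing₂ m * ((y₂ : ℝ) - y₁) / Real.log (P n) ^ 2)) := by
  classical
  refine ⟨?_, ?_⟩
  · intro s hs q hq κ U W A ε hε
    obtain ⟨B, N1, h1⟩ := Aux.small s q hq κ (U + 1)
    obtain ⟨N2, h2⟩ := Aux.det s hs A B ε hε
    obtain ⟨N3, h3⟩ := Pool.Agent.Results.MP_629a14_nt.SimultaneousRepresentations.result.1 s hs q hq 1 κ (U + 1) W
      (A + B + 3) (min ε (1 / 2) / 16) (div_pos (lt_min hε (by norm_num)) (by norm_num))
    have e0 : Tendsto (fun N : ℕ => Real.log (N : ℝ)) atTop atTop :=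
      Real.tendsto_log_atTop.comp tendsto_natCast_atTop_atTop
    have e3 := (tendsto_natCast_atTop_atTop (R := ℝ)).eventually
        ((isLittleO_log_rpow_atTop (r := 1 / ((B : ℝ) + W + 1)) (by positivity)).def (c := 1) one_pos)
    obtain ⟨N4, h4⟩ := eventually_atTop.1 ((e0.eventually_ge_atTop 2).and e3)
    refine ⟨N1 + N2 + N3 + N4 + 1, fun N hN ι _ p a hX => ?_⟩
    obtain ⟨hl2, g3⟩ := h4 N (by omega)
    have hN1 : (1 : ℝ) ≤ N := by exact_mod_cast (by omega : 1 ≤ N)
    have hN0 : (0 : ℝ) < N := by linarith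
    have hl0 : 0 < Real.log N := by linarith
    have hl1 : 1 ≤ Real.log N := by linarith
    have hlN : Real.log N ^ (B + W) ≤ N := by
      rw [Real.norm_of_nonneg hl0.le, Real.norm_of_nonneg (by positivity), one_mul] at g3
      calc Real.log N ^ (B + W) ≤ ((N : ℝ) ^ (1 / ((B : ℝ) + W + 1))) ^ (B + W) := pow_le_pow_left₀ hl0.le g3 _
        _ = (N : ℝ) ^ (1 / ((B : ℝ) + W + 1) * (B + W : ℕ)) := by rw [Real.rpow_mul hN0.le, Real.rpow_natCast]
        _ ≤ (N : ℝ) ^ (1 : ℝ) := by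
            apply Real.rpow_le_rpow_of_exponent_le hN1
            rw [one_div, inv_mul_le_iff₀ (by positivity)]
            push_cast
            linarith
        _ = N := Real.rpow_one _
    have hW1 : Real.log N ^ W ≤ N / Real.log N ^ B := by
      rw [le_div_iff₀ (by positivity), ← pow_add]
      rwa [add_comm W B]
    have hW2 : Real.log N ^ W ≤ N := by
      refine le_trans ?_ hlN
      exact pow_le_pow_right₀ hl1 (by omega)
    obtain ⟨J, hJ⟩ : ∃ J : ∀ i, Finset (ι i), J = fun i => univ.filter fun x => a i x ≤ 2 * (N / Real.log N ^ B) := ⟨_, rfl⟩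
    have h5 := h1 N (by omega) ι p a (fun i => ⟨(hX i).1, (hX i).2.1, fun x => ((hX i).2.2.1 x).1, (hX i).2.2.2⟩) J
      (fun i x hx => by
        rw [hJ] at hx
        exact (mem_filter.1 hx).2)
    have h6 := Aux.union_le p (fun i => (hX i).1) (fun i => (hX i).2.1) J
    have h7 := h3 N (by omega) ι p a (fun i => ⟨(hX i).1, (hX i).2.1, fun x => ⟨by
      have g1 := ((hX i).2.2.1 x).1
      have g2 : 0 ≤ Real.log N ^ W := by positivity
      linarith, by
      have g1 := ((hX i).2.2.1 x).2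
      push_cast
      linarith⟩, (hX i).2.2.2⟩)
    have h0 : ∀ x : (∀ i, ι i), 0 ≤ ∏ i, p i (x i) := fun x => prod_nonneg fun i _ => (hX i).1 _
    have h8 : Pool.Agent.Results.MP_629a14_nt.SimultaneousRepresentations.Prob p (fun x =>
          ∀ m : Fin s → ℕ, (∀ i, |(m i : ℝ) - a i (x i)| ≤ Real.log N ^ W) →
            Pool.Agent.Results.MP_629a14_nt.SimultaneousRepresentations.Holds (min ε (1 / 2) / 16) (A + B + 3) (U + 1) N m) ≤
        Prob p (fun x => ∀ m : Fin s → ℕ, (∀ i, |(m i : ℝ) - a i (x i)| ≤ Real.log N ^ W) → Holds ε A m) +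
          Prob p (fun x => ∃ i, x i ∈ J i) := by
      unfold Prob Pool.Agent.Results.MP_629a14_nt.SimultaneousRepresentations.Prob
      rw [← sum_add_distrib]
      apply sum_le_sum
      intro x _
      by_cases c1 : ∃ i, x i ∈ J i
      · rw [if_pos c1]
        have g1 : (if ∀ m : Fin s → ℕ, (∀ i, |(m i : ℝ) - a i (x i)| ≤ Real.log N ^ W) →
            Pool.Agent.Results.MP_629a14_nt.SimultaneousRepresentations.Holds (min ε (1 / 2) / 16) (A + B + 3) (U + 1) N m then
            ∏ i, p i (x i) else 0) ≤ ∏ i, p i (x i) := by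
          split_ifs
          · exact le_rfl
          · exact h0 x
        have g2 : 0 ≤ (if ∀ m : Fin s → ℕ, (∀ i, |(m i : ℝ) - a i (x i)| ≤ Real.log N ^ W) → Holds ε A m then
            ∏ i, p i (x i) else 0) := by
          split_ifs
          · exact h0 x
          · exact le_rfl
        linarith
      · rw [if_neg c1, add_zero]
        by_cases c2 : ∀ m : Fin s → ℕ, (∀ i, |(m i : ℝ) - a i (x i)| ≤ Real.log N ^ W) →
            Pool.Agent.Results.MP_629a14_nt.SimultaneousRepresentations.Holds (min ε (1 / 2) / 16) (A + B + 3) (U + 1) N m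
        · rw [if_pos c2, if_pos]
          intro m hm
          refine h2 N (by omega) (U + 1) m (fun i => ?_) (c2 m hm)
          have g1 : ¬ a i (x i) ≤ 2 * (N / Real.log N ^ B) := by
            intro g
            apply c1
            refine ⟨i, ?_⟩
            rw [hJ]
            exact mem_filter.2 ⟨mem_univ _, g⟩
          have g2 := abs_le.1 (hm i)
          have g3 := ((hX i).2.2.1 (x i)).2
          rw [not_le] at g1
          constructor
          · linarith [g2.1]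
          · linarith [g2.2]
        · rw [if_neg c2]
          split_ifs
          · exact h0 x
          · exact le_rfl
    have h9 : 1 / Real.log N ^ (U + 1) + 1 / Real.log N ^ (U + 1) ≤ 1 / Real.log N ^ U := by
      have e : 1 / Real.log N ^ U = Real.log N * (1 / Real.log N ^ (U + 1)) := by
        rw [pow_succ]
        field_simp
      rw [e]
      have : 0 ≤ 1 / Real.log N ^ (U + 1) := by positivity
      nlinarith
    linarith
  · intro ε A m n hev hn hm1 hm2 hH
    obtain ⟨S, k1, k2⟩ := hH n hn (fun _ => ⟨hm1, hm2⟩)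
    have had : Admissible (Fin.cons 0 (fun _ => m) : Fin 2 → ℕ) :=
      Pool.Agent.Results.MP_629a14_nt.SimultaneousRepresentations.adm_even m hev
    obtain ⟨k3, k4, k5, k6⟩ := k2 had
    have hm0 : m ≠ 0 := by omega
    have hS : S = sing₂ m := by
      have h6 := Pool.Agent.HP27.RG.tendsto_sh m hev.two_dvd hm0
      have h7 : (fun z => Pool.Agent.H373R2.T7.singZ (Pool.Agent.W93.GB.sh m) z) =
          sing (Fin.cons 0 (fun _ => m) : Fin 2 → ℕ) := by
        have e := Pool.Agent.Results.MP_629a14_nt.SimultaneousRepresentations.sing_eq (fun _ : Fin 1 => m)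
        have e2 : Pool.Agent.Results.MP_629a14_nt.SimultaneousRepresentations.sing (Fin.cons 0 (fun _ => m) : Fin 2 → ℕ) =
          sing (Fin.cons 0 (fun _ => m) : Fin 2 → ℕ) := rfl
        rw [← e2, ← e]
        funext z
        exact Pool.Agent.HP27.RG.singZ_neg (fun _ : Fin 1 => (m : ℤ)) z
      rw [h7] at h6
      exact tendsto_nhds_unique k1 h6
    rw [hS] at k3 k5 k6
    refine ⟨?_, k5, k6⟩
    obtain ⟨p, g1, g2, g3, g4⟩ := k4
    obtain ⟨q, g5, g6, g7, g8⟩ := g4 0
    exact ⟨p, q, g1, g5, g6, g2, g3, g7, g8⟩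

end Pool.Agent.Results.MP_484fb8_nt.SimultaneousCollisions
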